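import Pool.Agent.Work.MP_c00b06_gt.Fin2

/-! The Goussarov-Habiro conjecture for surfaces with non empty boundary, up to degree nine, in
the presentation of 3-dimensional cobordisms by a Hopf algebra object. -/

namespace Pool.Agent.Results.MP_c00b06_gt.DegreeLeNine

theorem result : ∀ X : Pool.Agent.GH.Wd → Pool.Agent.GH.Wd → Prop,
    (∀ x y, X x y → Pool.Agent.GH.Same x y) →
      ∀ g b k : ℕ, 1 ≤ k → k ≤ 9 → Pool.Agent.GH.Conj X g b k :=
  fun _ hX g b k h1 h9 => Pool.Agent.GH.conj_le_nine hX g b k h1 h9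

end Pool.Agent.Results.MP_c00b06_gt.DegreeLeNine
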